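import Pool.Agent.Lib.MP_ea1188_al.KG.IfaceC

/-! # Module TRC: the virtual permutation character 2[Q/z] - [Q]; MP_ea1188_al, helper70. -/

set_option autoImplicit false

namespace KG.H70


lemma trace_prep {Q Y : Type} [Group Q] [Fintype Q] [MulAction Q Y] [Fintype Y] [DecidableEq Y]
    (x : MonoidAlgebra ℤ Q) :
    Matrix.trace (prep Q Y x) =
      ∑ g : Q, x.coeff g * ((Finset.univ.filter fun y : Y => y = g • y).card : ℤ) := by
  induction x using MonoidAlgebra.induction_linear with
  | zero => simp
  | add f g hf hg =>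
    rw [map_add, Matrix.trace_add, hf, hg, ← Finset.sum_add_distrib]
    refine Finset.sum_congr rfl fun a _ => ?_
    rw [MonoidAlgebra.coeff_add, Finsupp.add_apply, add_mul]
  | single m r =>
    have h1 : prep Q Y (MonoidAlgebra.single m r) =
        r • (Matrix.of fun x y : Y => if x = m • y then (1 : ℤ) else 0) := by
      change MonoidAlgebra.lift ℤ (Matrix Y Y ℤ) Q _ (MonoidAlgebra.single m r) = _
      rw [MonoidAlgebra.lift_single]
      rfl
    rw [h1, Matrix.trace_smul, smul_eq_mul]
    rw [Finset.sum_eq_single m]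
    · rw [MonoidAlgebra.coeff_single, Finsupp.single_eq_same]
      congr 1
      simp [Matrix.trace]
    · intro b _ hb
      rw [MonoidAlgebra.coeff_single, Finsupp.single_eq_of_ne hb, zero_mul]
    · intro h
      exact absurd (Finset.mem_univ _) h

lemma fix_count (Q : Type) [Group Q] [Fintype Q] [DecidableEq Q] (z : Q) (N : ℕ) (hz : z * z = 1)
    (hz1 : z ≠ 1) [DecidableEq (Q ⧸ Subgroup.zpowers z)] [Fintype (Q ⧸ Subgroup.zpowers z)]
    (hN : Nat.card (Subgroup.centralizer {z}) = 2 ^ N) (g : Q) [Decidable (IsConj g z)] :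
    2 * ((Finset.univ.filter fun y : Q ⧸ Subgroup.zpowers z => y = g • y).card : ℤ) -
      ((Finset.univ.filter fun y : Q => y = g • y).card : ℤ) = if IsConj g z then 2 ^ N else 0 := by
  have hord : orderOf z = 2 := orderOf_eq_prime (by rw [pow_two, hz]) hz1
  have hcard : Nat.card (Subgroup.zpowers z) = 2 := by rw [Nat.card_zpowers, hord]
  -- preimage of the fixed cosets
  let t : Set (Q ⧸ Subgroup.zpowers z) := {y | y = g • y}
  have h1 : Nat.card ((QuotientGroup.mk : Q → Q ⧸ Subgroup.zpowers z) ⁻¹' t) =
      2 * Nat.card t := by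
    rw [Nat.card_congr (QuotientGroup.preimageMkEquivSubgroupProdSet _ t), Nat.card_prod, hcard]
  have h2 : Nat.card t = (Finset.univ.filter fun y : Q ⧸ Subgroup.zpowers z => y = g • y).card := by
    rw [Nat.card_eq_fintype_card, Fintype.card_subtype]
    rfl
  have hmem : ∀ x : Q, x ∈ ((QuotientGroup.mk : Q → Q ⧸ Subgroup.zpowers z) ⁻¹' t) ↔
      (x = g • x ∨ x⁻¹ * g * x = z) := by
    intro x
    have e1 : (x ∈ ((QuotientGroup.mk : Q → Q ⧸ Subgroup.zpowers z) ⁻¹' t)) ↔
        (QuotientGroup.mk x : Q ⧸ Subgroup.zpowers z) = QuotientGroup.mk (g * x) := Iff.rfl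
    rw [e1, QuotientGroup.eq, Subgroup.mem_zpowers_iff]
    constructor
    · rintro ⟨k, hk⟩
      rcases Int.even_or_odd' k with ⟨c, rfl | rfl⟩
      · left
        rw [zpow_mul, zpow_ofNat, pow_two, hz, one_zpow] at hk
        rw [smul_eq_mul]
        exact (inv_mul_eq_one.1 hk.symm)
      · right
        rw [zpow_add, zpow_mul, zpow_ofNat, pow_two, hz, one_zpow, one_mul, zpow_one] at hk
        rw [hk, mul_assoc]
    · rintro (h | h)
      · exact ⟨0, by rw [zpow_zero, eq_comm, inv_mul_eq_one]; exact h⟩
      · exact ⟨1, by rw [zpow_one, ← h, mul_assoc]⟩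
  have h3 : Nat.card ((QuotientGroup.mk : Q → Q ⧸ Subgroup.zpowers z) ⁻¹' t) =
      (Finset.univ.filter fun y : Q => y = g • y).card +
        (Finset.univ.filter fun y : Q => y⁻¹ * g * y = z).card := by
    rw [← Finset.card_union_of_disjoint]
    · classical
      rw [Nat.card_eq_fintype_card, Fintype.card_subtype]
      congr 1
      ext x
      rw [Finset.mem_union, Finset.mem_filter, Finset.mem_filter, Finset.mem_filter]
      simp only [Finset.mem_univ, true_and]
      exact hmem x
    · rw [Finset.disjoint_left]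
      intro x hx hx2
      rw [Finset.mem_filter] at hx hx2
      apply hz1
      rw [← hx2.2, mul_assoc]
      have := hx.2
      rw [smul_eq_mul] at this
      rw [← this, inv_mul_cancel]
  have h4 : ((Finset.univ.filter fun y : Q => y⁻¹ * g * y = z).card : ℤ) =
      if IsConj g z then 2 ^ N else 0 := by
    split_ifs with hc
    · obtain ⟨c, hc⟩ := isConj_iff.1 hc
      have hb : (Finset.univ.filter fun y : Q => y⁻¹ * g * y = z).card =
          Nat.card (Subgroup.centralizer {z}) := by
        rw [← Fintype.card_subtype, ← Nat.card_eq_fintype_card]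
        refine Nat.card_congr
          { toFun := fun y => ⟨c * y.1, ?_⟩
            invFun := fun y => ⟨c⁻¹ * y.1, ?_⟩
            left_inv := fun y => Subtype.ext (by simp)
            right_inv := fun y => Subtype.ext (by simp) }
        · rw [Subgroup.mem_centralizer_singleton_iff]
          have hy : y.1⁻¹ * (c⁻¹ * z * c) * y.1 = z := by
            have h0 := y.2
            have hg : c⁻¹ * z * c = g := by rw [← hc]; group
            rw [hg]
            exact h0
          have : z * (c * y.1) = (c * y.1) * (y.1⁻¹ * (c⁻¹ * z * c) * y.1) := by group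
          rw [hy] at this
          exact this.symm
        · have hy := Subgroup.mem_centralizer_singleton_iff.1 y.2
          have hg : g = c⁻¹ * z * c := by rw [← hc]; group
          rw [hg]
          have : (c⁻¹ * y.1)⁻¹ * (c⁻¹ * z * c) * (c⁻¹ * y.1) = y.1⁻¹ * (z * y.1) := by group
          rw [this, ← hy]
          group
      rw [hb, hN]
      push_cast
      rfl
    · rw [Nat.cast_eq_zero, Finset.card_eq_zero, Finset.filter_eq_empty_iff]
      intro y _ hy
      apply hc
      rw [isConj_iff]
      exact ⟨y⁻¹, by rw [inv_inv]; exact hy⟩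
  rw [← h4]
  have h5 := h1.symm.trans h3
  rw [h2] at h5
  have h6 : (2 : ℤ) * ((Finset.univ.filter fun y : Q ⧸ Subgroup.zpowers z => y = g • y).card : ℤ) =
      ((Finset.univ.filter fun y : Q => y = g • y).card : ℤ) +
        ((Finset.univ.filter fun y : Q => y⁻¹ * g * y = z).card : ℤ) := by
    exact_mod_cast h5
  rw [h6]
  ring

lemma trace_bigM {Q Y : Type} [Group Q] [Fintype Q] [MulAction Q Y] [Fintype Y] [DecidableEq Y]
    {ι : Type} [Fintype ι] [DecidableEq ι] (X : Matrix ι ι (MonoidAlgebra ℤ Q)) :
    Matrix.trace (bigM Q Y X) =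
      ∑ i, ∑ g : Q, (X i i).coeff g * ((Finset.univ.filter fun y : Y => y = g • y).card : ℤ) := by
  have h1 : Matrix.trace (bigM Q Y X) = ∑ i, Matrix.trace (prep Q Y (X i i)) := by
    rw [Matrix.trace, Fintype.sum_prod_type]
    rfl
  rw [h1]
  exact Finset.sum_congr rfl fun i _ => trace_prep _

theorem trc : TrcS := by
  intro Q _ _ _ z N hz hz1 _ _ hN ι _ _ X
  classical
  rw [trace_bigM, trace_bigM, cz, Finset.mul_sum, Finset.mul_sum, ← Finset.sum_sub_distrib]
  refine Finset.sum_congr rfl fun i _ => ?_
  rw [Finset.mul_sum, Finset.mul_sum, ← Finset.sum_sub_distrib, Finset.sum_filter]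
  refine Finset.sum_congr rfl fun g _ => ?_
  have h := fix_count Q z N hz hz1 hN g
  by_cases hc : IsConj g z
  · rw [if_pos hc] at h ⊢
    rw [← h]
    ring
  · rw [if_neg hc] at h ⊢
    have h2 : 2 * ((X i i).coeff g *
        ((Finset.univ.filter fun y : Q ⧸ Subgroup.zpowers z => y = g • y).card : ℤ)) -
        (X i i).coeff g * ((Finset.univ.filter fun y : Q => y = g • y).card : ℤ) =
        (X i i).coeff g * (2 * ((Finset.univ.filter fun y : Q ⧸ Subgroup.zpowers z =>
          y = g • y).card : ℤ) - ((Finset.univ.filter fun y : Q => y = g • y).card : ℤ)) := by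
      ring
    rw [h2, h, mul_zero]

end KG.H70
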